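import Mathlib

set_option autoImplicit false

open Filter Topology
open scoped Nat

namespace Pool.Agent.Lib.MP_b969c4_an

/-- triangular numbers -/
def T : ℕ → ℕ
  | 0 => 0
  | k + 1 => T k + (k + 1)

lemma T_zero : T 0 = 0 := rfl
lemma T_succ (k : ℕ) : T (k + 1) = T k + (k + 1) := rfl

lemma T_strictMono : StrictMono T := strictMono_nat_of_lt_succ fun k => by rw [T_succ]; omega

lemma T_mono : Monotone T := T_strictMono.monotone

lemma le_T (k : ℕ) : k ≤ T k := T_strictMono.le_apply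

lemma exists_block (n : ℕ) (hn : 1 ≤ n) : ∃ k s, s < k ∧ n + s = T k := by
  induction n with
  | zero => omega
  | succ n ih =>
    rcases Nat.eq_zero_or_pos n with h0 | hpos
    · subst h0
      exact ⟨1, 0, by norm_num, rfl⟩
    · obtain ⟨k, s, hs, h⟩ := ih hpos
      rcases Nat.eq_zero_or_pos s with h1 | h1
      · subst h1
        refine ⟨k + 1, k, by omega, ?_⟩
        rw [T_succ]; omega
      · exact ⟨k, s - 1, by omega, by omega⟩

/-- for `l ≥ k + 1`, `T l - T k ≥ l`. -/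
lemma T_gap (k i : ℕ) : T k + (k + 1 + i) ≤ T (k + 1 + i) := by
  have h1 : T (k + 1 + i) = T (k + i) + (k + i + 1) := by
    rw [show k + 1 + i = (k + i) + 1 by ring, T_succ]
  have h2 : T k ≤ T (k + i) := T_mono (by omega)
  omega

/-- for `l = k + 2 + i`, `T l - T k ≥ 2 l - 1`. -/
lemma T_gap2 (k i : ℕ) : T k + ((k + 2 + i) + (k + 1 + i)) ≤ T (k + 2 + i) := by
  have h1 : T (k + 2 + i) = T (k + 1 + i) + (k + 2 + i) := by
    rw [show k + 2 + i = (k + 1 + i) + 1 by ring, T_succ]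
  have h2 := T_gap k i
  omega

lemma key_small (l r : ℕ) (rho : ℝ) (hl : 2 ≤ l) (hr : l - 1 ≤ r) (h1 : 1 ≤ rho)
    (h4 : 4 * rho ^ 3 ≤ l + 1) :
    (l ! : ℝ) * rho ^ (l + r) / ((l + r)! : ℝ) ≤ (1 / 4 : ℝ) ^ (l - 1) := by
  have hfac : (l ! : ℝ) * ((l : ℝ) + 1) ^ r ≤ ((l + r)! : ℝ) := by
    exact_mod_cast @Nat.factorial_mul_pow_le_factorial l r
  have hlpos : (0 : ℝ) < (l : ℝ) + 1 := by positivity
  have hfpos : (0 : ℝ) < (l ! : ℝ) := by positivity
  have hpow : rho ^ (l + r) ≤ rho ^ (3 * r) := pow_le_pow_right₀ h1 (by omega)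
  have hstep : (l ! : ℝ) * rho ^ (l + r) / ((l + r)! : ℝ) ≤ rho ^ (3 * r) / ((l : ℝ) + 1) ^ r := by
    rw [div_le_div_iff₀ (by positivity) (by positivity)]
    calc (l ! : ℝ) * rho ^ (l + r) * ((l : ℝ) + 1) ^ r
        = rho ^ (l + r) * ((l ! : ℝ) * ((l : ℝ) + 1) ^ r) := by ring
      _ ≤ rho ^ (3 * r) * ((l + r)! : ℝ) :=
          mul_le_mul hpow hfac (by positivity) (by positivity)
  have h5 : rho ^ 3 / ((l : ℝ) + 1) ≤ 1 / 4 := by
    rw [div_le_div_iff₀ hlpos (by norm_num)]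
    linarith
  calc (l ! : ℝ) * rho ^ (l + r) / ((l + r)! : ℝ)
      ≤ rho ^ (3 * r) / ((l : ℝ) + 1) ^ r := hstep
    _ = (rho ^ 3 / ((l : ℝ) + 1)) ^ r := by rw [pow_mul, div_pow]
    _ ≤ (1 / 4 : ℝ) ^ r := pow_le_pow_left₀ (by positivity) h5 r
    _ ≤ (1 / 4 : ℝ) ^ (l - 1) := pow_le_pow_of_le_one (by norm_num) (by norm_num) hr

section construct

variable (lam : ℕ → ℕ) (a : ℕ → ℂ)

/-- `k`-th term of the `n`-th derivative -/
noncomputable def term (n k : ℕ) (z : ℂ) : ℂ :=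
  if n ≤ T k then ((k ! : ℂ) * (lam k : ℂ) ^ k) * ((z - a k) ^ (T k - n) / ((T k - n)! : ℂ)) else 0

/-- the `n`-th derivative -/
noncomputable def gg (n : ℕ) (z : ℂ) : ℂ := ∑' k, term lam a n k z

lemma term_of_le {n k : ℕ} (h : n ≤ T k) (z : ℂ) :
    term lam a n k z =
      ((k ! : ℂ) * (lam k : ℂ) ^ k) * ((z - a k) ^ (T k - n) / ((T k - n)! : ℂ)) := by
  simp [term, h]

lemma term_of_lt {n k : ℕ} (h : T k < n) (z : ℂ) : term lam a n k z = 0 := by
  simp [term, Nat.not_le.mpr h]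

lemma hasDerivAt_term (n k : ℕ) (z : ℂ) :
    HasDerivAt (term lam a n k) (term lam a (n + 1) k z) z := by
  rcases Nat.lt_or_ge (T k) n with h | h
  · have h1 : term lam a n k = fun _ => 0 := by
      funext w; exact term_of_lt lam a h w
    rw [h1, term_of_lt lam a (by omega)]
    exact hasDerivAt_const z 0
  · have h1 : term lam a n k = fun w =>
      ((k ! : ℂ) * (lam k : ℂ) ^ k) * ((w - a k) ^ (T k - n) / ((T k - n)! : ℂ)) := by
      funext w; exact term_of_le lam a h w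
    rw [h1]
    have h2 : HasDerivAt (fun w : ℂ => (w - a k) ^ (T k - n))
        (((T k - n : ℕ) : ℂ) * (z - a k) ^ (T k - n - 1) * 1) z :=
      ((hasDerivAt_id z).sub_const (a k)).pow (T k - n)
    have h3 := (h2.div_const ((T k - n)! : ℂ)).const_mul ((k ! : ℂ) * (lam k : ℂ) ^ k)
    refine h3.congr_deriv ?_
    rcases Nat.lt_or_ge (T k) (n + 1) with h4 | h4
    · have h5 : T k - n = 0 := by omega
      rw [term_of_lt lam a h4, h5]
      simp
    · rw [term_of_le lam a h4]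
      obtain ⟨m, hm⟩ : ∃ m, T k - n = m + 1 := ⟨T k - n - 1, by omega⟩
      have hm' : T k - (n + 1) = m := by omega
      rw [hm, hm', Nat.factorial_succ]
      have : ((m : ℂ) + 1) ≠ 0 := by exact_mod_cast Nat.succ_ne_zero m
      have : (m ! : ℂ) ≠ 0 := by exact_mod_cast Nat.factorial_ne_zero m
      push_cast
      field_simp

/-- upper bound for `term` on the ball of radius `R` -/
noncomputable def bd (R : ℝ) (n k : ℕ) : ℝ :=
  if n ≤ T k then ((k ! : ℝ) * (lam k : ℝ) ^ k) * ((R + ‖a k‖) ^ (T k - n) / ((T k - n)! : ℝ)) else 0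

lemma norm_term_le {R : ℝ} {z : ℂ} (hz : ‖z‖ ≤ R) (n k : ℕ) :
    ‖term lam a n k z‖ ≤ bd lam a R n k := by
  rcases Nat.lt_or_ge (T k) n with h | h
  · rw [term_of_lt lam a h]
    simp [bd, Nat.not_le.mpr h]
  · rw [term_of_le lam a h]
    simp only [bd, h, if_true]
    rw [norm_mul, norm_mul, norm_div, norm_pow, norm_pow, Complex.norm_natCast,
      Complex.norm_natCast, Complex.norm_natCast]
    have h1 : ‖z - a k‖ ≤ R + ‖a k‖ := (norm_sub_le _ _).trans (by linarith)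
    gcongr

/-- `bd` in terms of `lam ^ 6`. -/
lemma bd_le_of_large {R δ : ℝ} {n l s t : ℕ} (hδ : 0 < δ) (hδ1 : 1 ≤ δ * lam l)
    (hl2 : 2 ≤ lam l) (hR : R ≤ lam l) (hR0 : 0 ≤ R) (ha : ‖a l‖ ≤ lam l)
    (hs : n + s + t = T l) (hlt : l ≤ t) (hst : s ≤ t) :
    bd lam a R n l ≤ δ ^ s / (s ! : ℝ) * ((l ! : ℝ) * ((lam l : ℝ) ^ 6) ^ t / (t ! : ℝ)) := by
  have hnl : n ≤ T l := by omega
  have hsub : T l - n = s + t := by omega
  simp only [bd, hnl, if_true, hsub]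
  have hlam2 : (2 : ℝ) ≤ lam l := by exact_mod_cast hl2
  have hlam1 : (1 : ℝ) ≤ lam l := by linarith
  have hlam0 : (0 : ℝ) ≤ lam l := by linarith
  have hb : R + ‖a l‖ ≤ (lam l : ℝ) ^ 2 := by nlinarith
  have hfac : (s ! : ℝ) * (t ! : ℝ) ≤ ((s + t)! : ℝ) := by
    exact_mod_cast Nat.le_of_dvd (Nat.factorial_pos _) (Nat.factorial_mul_factorial_dvd_factorial_add s t)
  have h1 : (R + ‖a l‖) ^ (s + t) / ((s + t)! : ℝ) ≤
      ((lam l : ℝ) ^ 2) ^ (s + t) / ((s ! : ℝ) * (t ! : ℝ)) := by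
    gcongr
  have h2 : (lam l : ℝ) ^ l * ((lam l : ℝ) ^ 2) ^ (s + t) ≤ δ ^ s * ((lam l : ℝ) ^ 6) ^ t := by
    have h3 : (1 : ℝ) ≤ (δ * lam l) ^ s := one_le_pow₀ hδ1
    calc (lam l : ℝ) ^ l * ((lam l : ℝ) ^ 2) ^ (s + t)
        ≤ ((lam l : ℝ) ^ l * ((lam l : ℝ) ^ 2) ^ (s + t)) * (δ * lam l) ^ s :=
          le_mul_of_one_le_right (by positivity) h3
      _ = δ ^ s * (lam l : ℝ) ^ (l + 2 * (s + t) + s) := by
          rw [mul_pow, ← pow_mul]; ring
      _ ≤ δ ^ s * (lam l : ℝ) ^ (6 * t) := by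
          apply mul_le_mul_of_nonneg_left _ (by positivity)
          exact pow_le_pow_right₀ hlam1 (by omega)
      _ = δ ^ s * ((lam l : ℝ) ^ 6) ^ t := by rw [← pow_mul]
  calc (l ! : ℝ) * (lam l : ℝ) ^ l * ((R + ‖a l‖) ^ (s + t) / ((s + t)! : ℝ))
      ≤ (l ! : ℝ) * (lam l : ℝ) ^ l * (((lam l : ℝ) ^ 2) ^ (s + t) / ((s ! : ℝ) * (t ! : ℝ))) := by
        gcongr
    _ = (l ! : ℝ) * ((lam l : ℝ) ^ l * ((lam l : ℝ) ^ 2) ^ (s + t)) / ((s ! : ℝ) * (t ! : ℝ)) := by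
        ring
    _ ≤ (l ! : ℝ) * (δ ^ s * ((lam l : ℝ) ^ 6) ^ t) / ((s ! : ℝ) * (t ! : ℝ)) := by
        gcongr
    _ = δ ^ s / (s ! : ℝ) * ((l ! : ℝ) * ((lam l : ℝ) ^ 6) ^ t / (t ! : ℝ)) := by
        ring

/-- the standing hypotheses on the two sequences -/
structure Good : Prop where
  lam_tendsto : Tendsto lam atTop atTop
  small : ∀ᶠ l in atTop, 4 * (((lam l : ℝ) ^ 6) ^ 3) ≤ (l : ℝ) + 1
  fact : ∀ᶠ l in atTop, 2 * (((lam l : ℝ) ^ 6) ^ l + 1) ≤ ((l - 2)! : ℝ)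
  norm_a : ∀ᶠ l in atTop, ‖a l‖ ≤ lam l

variable {lam a}

lemma Good.ev (hG : Good lam a) (R δ : ℝ) (hδ : 0 < δ) :
    ∀ᶠ l in atTop, (2 ≤ lam l ∧ R ≤ lam l ∧ 2 ≤ δ * lam l ∧ ‖a l‖ ≤ lam l) ∧
      4 * (((lam l : ℝ) ^ 6) ^ 3) ≤ (l : ℝ) + 1 ∧
      2 * (((lam l : ℝ) ^ 6) ^ l + 1) ≤ ((l - 2)! : ℝ) := by
  have hreal : Tendsto (fun l => (lam l : ℝ)) atTop atTop :=
    tendsto_natCast_atTop_atTop.comp hG.lam_tendsto
  filter_upwards [hG.lam_tendsto.eventually_ge_atTop 2, hreal.eventually_ge_atTop R,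
    hreal.eventually_ge_atTop (2 / δ), hG.norm_a, hG.small, hG.fact] with l h1 h2 h3 h4 h5 h6
  refine ⟨⟨h1, h2, ?_, h4⟩, h5, h6⟩
  rw [div_le_iff₀ hδ] at h3
  linarith

lemma Good.bd_eventually (hG : Good lam a) {R : ℝ} (hR0 : 0 ≤ R) (n : ℕ) :
    ∀ᶠ l in atTop, bd lam a R n l ≤ (1 / 4 : ℝ) ^ (l - 1) := by
  filter_upwards [hG.ev R 1 one_pos, eventually_ge_atTop (n + 2)] with l hl hln
  obtain ⟨⟨h1, h2, h3, h4⟩, h5, -⟩ := hl
  have hgap : n + (l + (l - 1)) ≤ T l := by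
    have h := T_gap2 n (l - n - 2)
    have e1 : n + 2 + (l - n - 2) = l := by omega
    have e2 : n + 1 + (l - n - 2) = l - 1 := by omega
    rw [e1, e2] at h
    have := le_T n
    omega
  have hb := bd_le_of_large lam a (R := R) (δ := 1) (n := n) (l := l) (s := 0) (t := T l - n)
    one_pos (by linarith) h1 h2 hR0 h4 (by omega) (by omega) (by omega)
  obtain ⟨r, hr⟩ : ∃ r, T l - n = l + r := ⟨T l - n - l, by omega⟩
  have hk := key_small l r ((lam l : ℝ) ^ 6) (by omega) (by omega)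
    (one_le_pow₀ (by exact_mod_cast (by omega : 1 ≤ lam l))) h5
  rw [hr] at hb
  simpa using hb.trans (by simpa using hk)

lemma bd_nonneg {R : ℝ} (hR0 : 0 ≤ R) (n l : ℕ) : 0 ≤ bd lam a R n l := by
  unfold bd
  split_ifs
  · positivity
  · exact le_rfl

lemma summable_quarter : Summable fun l : ℕ => (1 / 4 : ℝ) ^ (l - 1) := by
  rw [← summable_nat_add_iff 1]
  simpa using summable_geometric_of_lt_one (by norm_num : (0 : ℝ) ≤ 1 / 4) (by norm_num)

lemma Good.summable_bd (hG : Good lam a) {R : ℝ} (hR0 : 0 ≤ R) (n : ℕ) :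
    Summable (bd lam a R n) := by
  refine Summable.of_norm_bounded_eventually_nat summable_quarter ?_
  filter_upwards [hG.bd_eventually hR0 n] with l hl
  rwa [Real.norm_of_nonneg (bd_nonneg hR0 n l)]

lemma Good.hasDerivAt_gg (hG : Good lam a) (n : ℕ) (z : ℂ) :
    HasDerivAt (gg lam a n) (gg lam a (n + 1) z) z := by
  set R : ℝ := ‖z‖ + 1
  have hR0 : 0 ≤ R := by positivity
  have hz : z ∈ Metric.ball (0 : ℂ) R := by simp [R]
  have hd : ∀ k, DifferentiableOn ℂ (term lam a n k) (Metric.ball 0 R) := fun k w _ =>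
    (hasDerivAt_term lam a n k w).differentiableAt.differentiableWithinAt
  have hb : ∀ k, ∀ w ∈ Metric.ball (0 : ℂ) R, ‖term lam a n k w‖ ≤ bd lam a R n k := by
    intro k w hw
    exact norm_term_le lam a (by simpa using (mem_ball_zero_iff.mp hw).le) n k
  have h1 := Complex.hasSum_deriv_of_summable_norm (hG.summable_bd hR0 n) hd Metric.isOpen_ball hb hz
  have h2 := Complex.differentiableOn_tsum_of_summable_norm (hG.summable_bd hR0 n) hd
    Metric.isOpen_ball hb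
  have h3 : DifferentiableAt ℂ (gg lam a n) z :=
    (h2 z hz).differentiableAt (Metric.isOpen_ball.mem_nhds hz)
  have h4 : deriv (gg lam a n) z = gg lam a (n + 1) z := by
    have h5 : HasSum (fun k => term lam a (n + 1) k z) (deriv (gg lam a n) z) := by
      have : (fun k => deriv (term lam a n k) z) = fun k => term lam a (n + 1) k z := by
        funext k
        exact (hasDerivAt_term lam a n k z).deriv
      rw [← this]
      exact h1
    exact h5.tsum_eq.symm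
  rw [← h4]
  exact h3.hasDerivAt

lemma Good.iteratedDeriv_gg (hG : Good lam a) (n : ℕ) :
    iteratedDeriv n (gg lam a 0) = gg lam a n := by
  induction n with
  | zero => simp
  | succ n ih =>
    rw [iteratedDeriv_succ, ih]
    funext z
    exact (hG.hasDerivAt_gg n z).deriv

lemma Good.differentiable_gg (hG : Good lam a) (n : ℕ) : Differentiable ℂ (gg lam a n) :=
  fun z => (hG.hasDerivAt_gg n z).differentiableAt

/-- the tail estimate -/
lemma Good.tail (hG : Good lam a) {R δ : ℝ} (hR0 : 0 ≤ R) (hδ : 0 < δ) :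
    ∀ᶠ k in atTop, ∀ s n, s < k → n + s = T k → ∀ z : ℂ, ‖z‖ ≤ R →
      ‖gg lam a n z - term lam a n k z‖ ≤ δ ^ s / (s ! : ℝ) * ((k - 1)! : ℝ) := by
  have hev := hG.ev R δ hδ
  obtain ⟨L, hL⟩ := eventually_atTop.mp hev
  filter_upwards [eventually_ge_atTop (max L 2)] with k hk s n hs hn z hz
  have hkL : L ≤ k := le_trans (le_max_left _ _) hk
  have hk2 : 2 ≤ k := le_trans (le_max_right _ _) hk
  set A : ℝ := ((lam (k + 1) : ℝ) ^ 6) ^ (k + 1) with hA
  have hA0 : 0 ≤ A := by positivity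
  have hbound : ∀ i, ‖term lam a n (i + (k + 1)) z‖ ≤
      δ ^ s / (s ! : ℝ) * (A + 1) * (1 / 2 : ℝ) ^ i := by
    intro i
    refine (norm_term_le lam a hz n (i + (k + 1))).trans ?_
    obtain ⟨⟨h1, h2, h3, h4⟩, h5, -⟩ := hL (i + (k + 1)) (by omega)
    have hgap := T_gap k i
    have e1 : k + 1 + i = i + (k + 1) := by ring
    rw [e1] at hgap
    have hb := bd_le_of_large lam a (R := R) (δ := δ) (n := n) (l := i + (k + 1)) (s := s)
      (t := T (i + (k + 1)) - T k) hδ (by linarith) h1 h2 hR0 h4 (by omega) (by omega) (by omega)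
    refine hb.trans ?_
    have hds : 0 ≤ δ ^ s / (s ! : ℝ) := by positivity
    rw [mul_assoc]
    refine mul_le_mul_of_nonneg_left ?_ hds
    rcases Nat.eq_zero_or_pos i with hi | hi
    · subst hi
      have e2 : T (0 + (k + 1)) - T k = k + 1 := by
        rw [zero_add, T_succ]; omega
      rw [e2]
      simp only [zero_add, pow_zero, mul_one]
      rw [mul_comm, mul_div_assoc, div_self (by positivity)]
      linarith
    · obtain ⟨j, rfl⟩ : ∃ j, i = j + 1 := ⟨i - 1, by omega⟩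
      have hgap2 := T_gap2 k j
      have e3 : k + 2 + j = j + 1 + (k + 1) := by ring
      rw [e3] at hgap2
      obtain ⟨r, hr⟩ : ∃ r, T (j + 1 + (k + 1)) - T k = (j + 1 + (k + 1)) + r :=
        ⟨T (j + 1 + (k + 1)) - T k - (j + 1 + (k + 1)), by omega⟩
      rw [hr]
      have hks := key_small (j + 1 + (k + 1)) r ((lam (j + 1 + (k + 1)) : ℝ) ^ 6) (by omega)
        (by omega) (one_le_pow₀ (by exact_mod_cast (by omega : 1 ≤ lam (j + 1 + (k + 1))))) h5
      refine hks.trans ?_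
      calc (1 / 4 : ℝ) ^ (j + 1 + (k + 1) - 1) ≤ (1 / 4 : ℝ) ^ (j + 1) :=
            pow_le_pow_of_le_one (by norm_num) (by norm_num) (by omega)
        _ ≤ (1 / 2 : ℝ) ^ (j + 1) := pow_le_pow_left₀ (by norm_num) (by norm_num) _
        _ = 1 * (1 / 2 : ℝ) ^ (j + 1) := by ring
        _ ≤ (A + 1) * (1 / 2 : ℝ) ^ (j + 1) := by gcongr; linarith
  have hsum : HasSum (fun i : ℕ => δ ^ s / (s ! : ℝ) * (A + 1) * (1 / 2 : ℝ) ^ i)
      (δ ^ s / (s ! : ℝ) * (A + 1) * 2) := by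
    exact hasSum_geometric_two.mul_left _
  have htail := tsum_of_norm_bounded hsum hbound
  have hsummable : Summable fun l => term lam a n l z :=
    Summable.of_norm_bounded (hG.summable_bd hR0 n) fun l => norm_term_le lam a hz n l
  have hsplit := hsummable.sum_add_tsum_nat_add (k + 1)
  have hfirst : ∑ l ∈ Finset.range (k + 1), term lam a n l z = term lam a n k z := by
    rw [Finset.sum_range_succ]
    have : ∑ l ∈ Finset.range k, term lam a n l z = 0 := by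
      refine Finset.sum_eq_zero fun l hl => ?_
      refine term_of_lt lam a ?_ z
      have hlk : l + 1 ≤ k := by simpa using hl
      have h1 : T (l + 1) ≤ T k := T_mono hlk
      obtain ⟨k', rfl⟩ : ∃ k', k = k' + 1 := ⟨k - 1, by omega⟩
      have h2 : T l ≤ T k' := T_mono (by omega)
      rw [T_succ] at hn
      omega
    rw [this, zero_add]
  rw [hfirst] at hsplit
  have hdiff : gg lam a n z - term lam a n k z = ∑' i, term lam a n (i + (k + 1)) z := by
    unfold gg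
    rw [← hsplit]
    ring
  rw [hdiff]
  refine htail.trans ?_
  obtain ⟨-, -, h6⟩ := hL (k + 1) (by omega)
  have e4 : k + 1 - 2 = k - 1 := by omega
  rw [e4] at h6
  rw [mul_assoc]
  refine mul_le_mul_of_nonneg_left ?_ (by positivity)
  linarith

lemma norm_term_ge {δ : ℝ} (hδ : 0 ≤ δ) {n k s : ℕ} (hn : n + s = T k) {z : ℂ}
    (hz : δ ≤ ‖z - a k‖) :
    δ ^ s / (s ! : ℝ) * ((k ! : ℝ) * (lam k : ℝ) ^ k) ≤ ‖term lam a n k z‖ := by
  rw [term_of_le lam a (by omega)]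
  have e : T k - n = s := by omega
  rw [e, norm_mul, norm_mul, norm_div, norm_pow, norm_pow, Complex.norm_natCast,
      Complex.norm_natCast, Complex.norm_natCast, mul_comm]
  gcongr

/-- lower bound away from the centre -/
lemma Good.lower (hG : Good lam a) {R δ : ℝ} (hR0 : 0 ≤ R) (hδ : 0 < δ) (hδ1 : δ ≤ 1) :
    ∀ᶠ k in atTop, ∀ s n, s < k → n + s = T k → ∀ z : ℂ, ‖z‖ ≤ R → δ ≤ ‖z - a k‖ →
      (2 : ℝ) ^ k ≤ 2 * ‖gg lam a n z‖ := by
  filter_upwards [hG.tail hR0 hδ, hG.ev R δ hδ, eventually_ge_atTop 2] with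
    k htail hev hk2 s n hs hn z hz hza
  obtain ⟨⟨h1, h2, h3, h4⟩, -, -⟩ := hev
  have h5 := htail s n hs hn z hz
  have h6 := norm_term_ge (lam := lam) (a := a) hδ.le hn hza
  have h7 : ‖term lam a n k z‖ ≤ ‖gg lam a n z‖ + ‖gg lam a n z - term lam a n k z‖ := by
    have := norm_sub_le (gg lam a n z) (gg lam a n z - term lam a n k z)
    simpa using this
  have hlam1 : (1 : ℝ) ≤ lam k := by exact_mod_cast (by omega : 1 ≤ lam k)
  have hfac : 2 * ((k - 1)! : ℝ) ≤ (k ! : ℝ) * (lam k : ℝ) ^ k := by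
    have h8 : 2 * (k - 1)! ≤ k ! := by
      obtain ⟨m, rfl⟩ : ∃ m, k = m + 1 := ⟨k - 1, by omega⟩
      rw [Nat.add_sub_cancel, Nat.factorial_succ]
      exact Nat.mul_le_mul_right _ hk2
    have h9 : 2 * ((k - 1)! : ℝ) ≤ (k ! : ℝ) := by exact_mod_cast h8
    have h10 : (1 : ℝ) ≤ (lam k : ℝ) ^ k := one_le_pow₀ hlam1
    nlinarith [show (0 : ℝ) < (k ! : ℝ) by positivity]
  have hds : 0 ≤ δ ^ s / (s ! : ℝ) := by positivity
  have h11 : δ ^ s / (s ! : ℝ) * ((k ! : ℝ) * (lam k : ℝ) ^ k) ≤ 2 * ‖gg lam a n z‖ := by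
    have h12 := mul_le_mul_of_nonneg_left hfac hds
    nlinarith
  refine le_trans ?_ h11
  have h13 : (s ! : ℝ) ≤ (k ! : ℝ) := by exact_mod_cast Nat.factorial_le hs.le
  have h14 : (δ * lam k) ^ k ≤ δ ^ s * (lam k : ℝ) ^ k := by
    rw [mul_pow]
    exact mul_le_mul_of_nonneg_right (pow_le_pow_of_le_one hδ.le hδ1 hs.le) (by positivity)
  calc (2 : ℝ) ^ k ≤ (δ * lam k) ^ k := pow_le_pow_left₀ (by norm_num) h3 k
    _ ≤ δ ^ s * (lam k : ℝ) ^ k := h14
    _ = δ ^ s * (lam k : ℝ) ^ k * 1 := by ring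
    _ ≤ δ ^ s * (lam k : ℝ) ^ k * ((k ! : ℝ) / (s ! : ℝ)) := by
        refine mul_le_mul_of_nonneg_left ?_ (by positivity)
        rw [le_div_iff₀ (by positivity)]
        linarith
    _ = δ ^ s / (s ! : ℝ) * ((k ! : ℝ) * (lam k : ℝ) ^ k) := by ring

/-- upper bound at the centre -/
lemma Good.upper (hG : Good lam a) {R : ℝ} (hR0 : 0 ≤ R) :
    ∀ᶠ k in atTop, ∀ n, n + (k - 1) = T k → ‖a k‖ ≤ R →
      ‖gg lam a n (a k)‖ ≤ 1 := by
  filter_upwards [hG.tail hR0 one_pos, eventually_ge_atTop 2] with k htail hk2 n hn ha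
  have h5 := htail (k - 1) n (by omega) hn (a k) ha
  have h6 : term lam a n k (a k) = 0 := by
    rw [term_of_le lam a (by omega)]
    have e : T k - n = k - 1 := by omega
    have e2 : k - 1 ≠ 0 := by omega
    rw [e, sub_self, zero_pow e2]
    simp
  rw [h6, sub_zero, one_pow, one_div, inv_mul_cancel₀ (by positivity)] at h5
  exact h5

end construct

end Pool.Agent.Lib.MP_b969c4_an
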