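import Mathlib

set_option autoImplicit false

open Filter Topology

namespace Pool.Agent.Lib.MP_b969c4_an

/-- The sequence `u` of functions tends to infinity uniformly on every compact subset of `N`. -/
def TendstoInftyOnCompacts (u : ℕ → ℂ → ℂ) (N : Set ℂ) : Prop :=
  ∀ K ⊆ N, IsCompact K → ∀ R : ℝ, ∀ᶠ n in atTop, ∀ z ∈ K, R < ‖u n z‖

/-- The sequence `u` of functions converges to `g` uniformly on every compact subset of `N`. -/
def TendstoOnCompacts (u : ℕ → ℂ → ℂ) (g : ℂ → ℂ) (N : Set ℂ) : Prop :=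
  ∀ K ⊆ N, IsCompact K → TendstoUniformlyOn u g atTop K

/-- The family `F` is normal on `N` (Montel convention): every sequence in `F` has a subsequence
which, uniformly on compact subsets of `N`, converges to an analytic function or to infinity. -/
def IsNormalFamily (F : Set (ℂ → ℂ)) (N : Set ℂ) : Prop :=
  ∀ u : ℕ → ℂ → ℂ, (∀ n, u n ∈ F) → ∃ s : ℕ → ℕ, StrictMono s ∧
    ((∃ g : ℂ → ℂ, AnalyticOnNhd ℂ g N ∧ TendstoOnCompacts (fun n => u (s n)) g N) ∨
      TendstoInftyOnCompacts (fun n => u (s n)) N)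

/-- The set of MacLane points of the function `f`, analytic on the domain `G`: the points `z`
having an open neighbourhood `N ⊆ G` on which the family of all derivatives of `f` is normal. -/
def macLaneSet (G : Set ℂ) (f : ℂ → ℂ) : Set ℂ :=
  {z | ∃ N : Set ℂ, IsOpen N ∧ z ∈ N ∧ N ⊆ G ∧
    IsNormalFamily (Set.range fun n : ℕ => iteratedDeriv n f) N}

end Pool.Agent.Lib.MP_b969c4_an
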