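import Mathlib
import Pool.Agent.Lib.MP_b969c4_an.Defs
import Pool.Agent.Lib.MP_b969c4_an.Blocks

set_option autoImplicit false

open Filter Topology Set
open scoped Nat

namespace Pool.Agent.Lib.MP_b969c4_an

/-- slowly growing sequences -/
lemma exists_slow (P : ℕ → ℕ → Prop) (h : ∀ c, ∀ᶠ l in atTop, P c l) :
    ∃ lam : ℕ → ℕ, Tendsto lam atTop atTop ∧ ∀ᶠ l in atTop, P (lam l) l := by
  classical
  choose L hL using fun c => eventually_atTop.mp (h c)
  refine ⟨fun l => Nat.findGreatest (fun c => L c ≤ l) l, ?_, ?_⟩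
  · refine tendsto_atTop.mpr fun c => ?_
    filter_upwards [eventually_ge_atTop (max c (L c))] with l hl
    exact Nat.le_findGreatest (le_trans (le_max_left _ _) hl) (le_trans (le_max_right _ _) hl)
  · filter_upwards [eventually_ge_atTop (L 0)] with l hl
    have h1 : L (Nat.findGreatest (fun c => L c ≤ l) l) ≤ l :=
      Nat.findGreatest_spec (P := fun c => L c ≤ l) (Nat.zero_le l) hl
    exact hL _ l h1

lemma eventually_fact (c : ℕ) :
    ∀ᶠ l in atTop, 2 * (((c : ℝ) ^ 6) ^ l + 1) ≤ ((l - 2)! : ℝ) := by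
  set C : ℝ := (c : ℝ) ^ 6 + 1 with hC
  have hC1 : 1 ≤ C := by rw [hC]; have : (0 : ℝ) ≤ (c : ℝ) ^ 6 := by positivity
                         linarith
  have h1 := FloorSemiring.tendsto_pow_div_factorial_atTop C
  have h2 : ∀ᶠ m in atTop, C ^ m / (m ! : ℝ) < 1 / (4 * C ^ 2) :=
    h1.eventually_lt_const (by positivity)
  obtain ⟨M, hM⟩ := eventually_atTop.mp h2
  filter_upwards [eventually_ge_atTop (M + 2)] with l hl
  have h3 := hM (l - 2) (by omega)
  rw [div_lt_div_iff₀ (by positivity) (by positivity)] at h3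
  have h4 : C ^ l = C ^ (l - 2) * C ^ 2 := by rw [← pow_add]; congr 1; omega
  have h5 : ((c : ℝ) ^ 6) ^ l ≤ C ^ l := pow_le_pow_left₀ (by positivity) (by rw [hC]; linarith) l
  have h6 : (1 : ℝ) ≤ C ^ l := one_le_pow₀ hC1
  nlinarith

lemma eventually_small (c : ℕ) :
    ∀ᶠ l : ℕ in atTop, 4 * (((c : ℝ) ^ 6) ^ 3) ≤ (l : ℝ) + 1 := by
  filter_upwards [eventually_ge_atTop (4 * (c ^ 6) ^ 3)] with l hl
  have : (4 * (((c : ℝ) ^ 6) ^ 3)) ≤ (l : ℝ) := by exact_mod_cast hl
  linarith

/-- for every nonempty closed set `K` there are good sequences `lam`, `a` with `a k ∈ K`, and every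
term of some dense sequence of `K` occurs infinitely often in `a`. -/
lemma exists_good (K : Set ℂ) (hK : K.Nonempty) :
    ∃ (lam : ℕ → ℕ) (a : ℕ → ℂ), Good lam a ∧ (∀ k, a k ∈ K) ∧
      ∀ N : Set ℂ, IsOpen N → (N ∩ K).Nonempty → ∃ d ∈ N, ∃ᶠ k in atTop, a k = d := by
  classical
  have : Nonempty K := hK.to_subtype
  obtain ⟨lam, hlam, hP⟩ := exists_slow
    (fun c l => 4 * (((c : ℝ) ^ 6) ^ 3) ≤ (l : ℝ) + 1 ∧
      2 * (((c : ℝ) ^ 6) ^ l + 1) ≤ ((l - 2)! : ℝ))
    (fun c => (eventually_small c).and (eventually_fact c))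
  let D : ℕ → K := TopologicalSpace.denseSeq K
  let a : ℕ → ℂ := fun l =>
    if ‖(D (Nat.unpair l).1 : ℂ)‖ ≤ lam l then (D (Nat.unpair l).1 : ℂ) else (D 0 : ℂ)
  have hreal : Tendsto (fun l => (lam l : ℝ)) atTop atTop :=
    tendsto_natCast_atTop_atTop.comp hlam
  refine ⟨lam, a, ⟨hlam, hP.mono fun l h => h.1, hP.mono fun l h => h.2, ?_⟩, ?_, ?_⟩
  · filter_upwards [hreal.eventually_ge_atTop ‖(D 0 : ℂ)‖] with l hl
    simp only [a]
    split_ifs with h
    · exact h
    · exact hl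
  · intro k
    simp only [a]
    split_ifs
    · exact (D _).2
    · exact (D 0).2
  · intro N hN hne
    obtain ⟨z, hzN, hzK⟩ := hne
    have hopen : IsOpen ((↑) ⁻¹' N : Set K) := hN.preimage continuous_subtype_val
    obtain ⟨i, hi⟩ := (TopologicalSpace.denseRange_denseSeq K).exists_mem_open hopen ⟨⟨z, hzK⟩, hzN⟩
    refine ⟨(D i : ℂ), hi, ?_⟩
    have hbig : ∀ᶠ l in atTop, ‖(D i : ℂ)‖ ≤ (lam l : ℝ) := hreal.eventually_ge_atTop _
    obtain ⟨L, hL⟩ := eventually_atTop.mp hbig
    rw [frequently_atTop]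
    intro b
    refine ⟨Nat.pair i (max b L), ?_, ?_⟩
    · exact le_trans (le_max_left b L) (Nat.right_le_pair _ _)
    · have h1 : L ≤ Nat.pair i (max b L) := le_trans (le_max_right b L) (Nat.right_le_pair _ _)
      have h2 := hL _ h1
      simp only [a, Nat.unpair_pair]
      rw [if_pos h2]

lemma tendsto_of_forall_ne {n : ℕ → ℕ} (h : ∀ m, ∀ᶠ i in atTop, n i ≠ m) :
    Tendsto n atTop atTop := by
  refine tendsto_atTop.mpr fun b => ?_
  have h1 : ∀ᶠ i in atTop, ∀ m ∈ Finset.range b, n i ≠ m :=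
    (Finset.eventually_all (Finset.range b)).mpr fun m _ => h m
  filter_upwards [h1] with i hi
  by_contra hlt
  exact hi (n i) (by simpa using hlt) rfl

lemma const_unif (g : ℂ → ℂ) (K : Set ℂ) :
    TendstoUniformlyOn (fun _ : ℕ => g) g atTop K := by
  intro u hu
  exact Eventually.of_forall fun n z _ => refl_mem_uniformity hu

lemma isNormal_of_tendsto {f : ℂ → ℂ} (hf : Differentiable ℂ f) {N : Set ℂ}
    (h : TendstoInftyOnCompacts (fun n => iteratedDeriv n f) N) :
    IsNormalFamily (Set.range fun n : ℕ => iteratedDeriv n f) N := by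
  intro u hu
  choose n hn using hu
  by_cases hc : ∃ m, ∃ᶠ i in atTop, n i = m
  · obtain ⟨m, hm⟩ := hc
    obtain ⟨e, he, hem⟩ := extraction_of_frequently_atTop hm
    refine ⟨e, he, Or.inl ⟨iteratedDeriv m f, ?_, ?_⟩⟩
    · have h1 : Differentiable ℂ (iteratedDeriv m f) := by
        have := (hf.contDiff (n := ⊤)).differentiable_iteratedDeriv m (by exact_mod_cast WithTop.coe_lt_top _)
        exact this
      intro z _
      exact (h1.analyticAt z)
    · intro K _ _
      have : (fun i => u (e i)) = fun _ => iteratedDeriv m f := by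
        funext i
        rw [← hn (e i), hem i]
      rw [this]
      exact const_unif _ _
  · push Not at hc
    have h1 : Tendsto n atTop atTop := tendsto_of_forall_ne fun m => by
      exact hc m
    refine ⟨id, strictMono_id, Or.inr ?_⟩
    intro K hK hKc R
    have h2 := h1.eventually (h K hK hKc R)
    filter_upwards [h2] with i hi z hz
    have h3 := hi z hz
    simp only [hn] at h3
    exact h3

lemma tendstoInfty_of_good {lam : ℕ → ℕ} {a : ℕ → ℂ} (hG : Good lam a) {U : Set ℂ}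
    (hU : IsOpen U) (ha : ∀ k, a k ∉ U) :
    TendstoInftyOnCompacts (fun n => gg lam a n) U := by
  intro C hCU hC B
  obtain ⟨R, hR⟩ := hC.isBounded.exists_norm_le
  obtain ⟨δ, hδ, hδU⟩ := hC.exists_cthickening_subset_open hU hCU
  have hδ1 : 0 < min δ 1 := lt_min hδ one_pos
  have hlow := hG.lower (R := max R 0) (le_max_right _ _) hδ1 (min_le_right δ 1)
  have hpow : ∀ᶠ k : ℕ in atTop, 2 * B < (2 : ℝ) ^ k :=
    (tendsto_pow_atTop_atTop_of_one_lt (by norm_num : (1 : ℝ) < 2)).eventually_gt_atTop _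
  obtain ⟨k0, hk0⟩ := eventually_atTop.mp (hlow.and hpow)
  filter_upwards [eventually_ge_atTop (T k0 + 1)] with n hn z hz
  obtain ⟨k, s, hs, hns⟩ := exists_block n (by omega)
  have hk : k0 ≤ k := by
    by_contra hlt
    have : T k ≤ T k0 := T_mono (by omega)
    omega
  obtain ⟨h1, h2⟩ := hk0 k hk
  have hzR : ‖z‖ ≤ max R 0 := (hR z hz).trans (le_max_left _ _)
  have hdist : min δ 1 ≤ ‖z - a k‖ := by
    by_contra hlt
    push Not at hlt
    apply ha k
    apply hδU
    refine Metric.mem_cthickening_of_dist_le (a k) z δ C hz ?_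
    rw [dist_comm, dist_eq_norm]
    exact hlt.le.trans (min_le_left _ _)
  have h3 := h1 s n hs hns z hzR hdist
  linarith

lemma not_mem_of_good {lam : ℕ → ℕ} {a : ℕ → ℂ} (hG : Good lam a) {N : Set ℂ} (hN : IsOpen N)
    {d : ℂ} (hd : d ∈ N) (hfreq : ∃ᶠ k in atTop, a k = d) :
    ¬ IsNormalFamily (Set.range fun n : ℕ => gg lam a n) N := by
  intro hnorm
  -- a second point in `N`
  obtain ⟨ε, hε, hball⟩ := Metric.isOpen_iff.mp hN d hd
  set w : ℂ := d + ((min (ε / 2) 1 : ℝ) : ℂ) with hw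
  have hm : 0 < min (ε / 2) 1 := lt_min (by linarith) one_pos
  have hwd : ‖w - d‖ = min (ε / 2) 1 := by
    rw [hw, add_sub_cancel_left, Complex.norm_real, Real.norm_of_nonneg hm.le]
  have hwN : w ∈ N := by
    apply hball
    rw [Metric.mem_ball, dist_eq_norm, hwd]
    exact (min_le_left _ _).trans_lt (by linarith)
  set R : ℝ := max ‖d‖ ‖w‖ with hR
  have hR0 : 0 ≤ R := (norm_nonneg d).trans (le_max_left _ _)
  have hup := hG.upper hR0
  have hlow := hG.lower (R := R) hR0 hm (min_le_right _ _)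
  have hfr : ∃ᶠ k in atTop, a k = d ∧ (2 ≤ k ∧ (∀ n, n + (k - 1) = T k → ‖a k‖ ≤ R →
      ‖gg lam a n (a k)‖ ≤ 1) ∧ ∀ s n, s < k → n + s = T k → ∀ z : ℂ, ‖z‖ ≤ R →
        min (ε / 2) 1 ≤ ‖z - a k‖ → (2 : ℝ) ^ k ≤ 2 * ‖gg lam a n z‖) :=
    hfreq.and_eventually ((eventually_ge_atTop 2).and (hup.and hlow))
  obtain ⟨κ, hκ, hκ2⟩ := extraction_of_frequently_atTop hfr
  let n : ℕ → ℕ := fun i => T (κ i) - (κ i - 1)
  have hn : ∀ i, n i + (κ i - 1) = T (κ i) := by
    intro i
    have := le_T (κ i)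
    simp only [n]
    omega
  have hat : ∀ i, ‖gg lam a (n i) d‖ ≤ 1 := by
    intro i
    obtain ⟨h1, h2, h3, h4⟩ := hκ2 i
    have := h3 (n i) (hn i) (by rw [h1]; exact le_max_left _ _)
    rwa [h1] at this
  have haway : ∀ i, (2 : ℝ) ^ (κ i) ≤ 2 * ‖gg lam a (n i) w‖ := by
    intro i
    obtain ⟨h1, h2, h3, h4⟩ := hκ2 i
    exact h4 (κ i - 1) (n i) (by omega) (hn i) w (le_max_right _ _) (by rw [h1, hwd])
  obtain ⟨e, he, hcase⟩ := hnorm (fun i => gg lam a (n i)) (fun i => ⟨n i, rfl⟩)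
  rcases hcase with ⟨g, -, hg⟩ | hinf
  · have h1 := hg {w} (by simpa using hwN) isCompact_singleton
    have h2 : Tendsto (fun i => gg lam a (n (e i)) w) atTop (𝓝 (g w)) :=
      h1.tendsto_at (Set.mem_singleton w)
    have h3 : Tendsto (fun i => ‖gg lam a (n (e i)) w‖) atTop (𝓝 ‖g w‖) := h2.norm
    have h4 : Tendsto (fun i => ‖gg lam a (n (e i)) w‖) atTop atTop := by
      have h5 : Tendsto (fun i => (2 : ℝ) ^ (κ (e i)) / 2) atTop atTop := by
        apply Tendsto.atTop_div_const (by norm_num)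
        exact (tendsto_pow_atTop_atTop_of_one_lt (by norm_num : (1 : ℝ) < 2)).comp
          (hκ.tendsto_atTop.comp he.tendsto_atTop)
      refine tendsto_atTop_mono (fun i => ?_) h5
      have := haway (e i)
      linarith
    exact not_tendsto_nhds_of_tendsto_atTop h4 _ h3
  · have h1 := hinf {d} (by simpa using hd) isCompact_singleton 1
    obtain ⟨i, hi⟩ := h1.exists
    have h2 := hi d (Set.mem_singleton d)
    exact absurd (hat (e i)) (not_le.mpr h2)

/-- For every open set `U` there is one entire function whose set of MacLane points in any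
open set `G ⊇ U` is `U`. -/
theorem exists_entire_macLaneSet (U : Set ℂ) (hU : IsOpen U) :
    ∃ f : ℂ → ℂ, Differentiable ℂ f ∧ ∀ G : Set ℂ, U ⊆ G → macLaneSet G f = U := by
  rcases (Uᶜ).eq_empty_or_nonempty with hK | hK
  · have hUuniv : U = Set.univ := by rwa [Set.compl_empty_iff] at hK
    refine ⟨fun _ => 0, differentiable_const _, fun G hUG => ?_⟩
    have hGuniv : G = Set.univ := by rw [hUuniv] at hUG; exact Set.univ_subset_iff.mp hUG
    rw [hUuniv, hGuniv]
    refine Set.eq_univ_of_forall fun z => ⟨Set.univ, isOpen_univ, Set.mem_univ z, subset_rfl, ?_⟩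
    intro u hu
    have h0 : ∀ n, u n = fun _ => 0 := by
      intro n
      obtain ⟨m, hm⟩ := hu n
      rw [← hm]
      simp only
      funext w
      rw [iteratedDeriv_const]
      split_ifs <;> rfl
    refine ⟨id, strictMono_id, Or.inl ⟨fun _ => 0, analyticOnNhd_const, ?_⟩⟩
    intro K _ _
    have : (fun n => u (id n)) = fun _ => (fun _ => (0 : ℂ)) := by
      funext i; exact h0 i
    rw [this]
    exact const_unif _ _
  · obtain ⟨lam, a, hG, ha, hdense⟩ := exists_good Uᶜ hK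
    have hder : (fun n : ℕ => iteratedDeriv n (gg lam a 0)) = fun n => gg lam a n := by
      funext n; exact hG.iteratedDeriv_gg n
    refine ⟨gg lam a 0, hG.differentiable_gg 0, fun G hUG => Set.Subset.antisymm ?_ ?_⟩
    · rintro z ⟨N, hN, hzN, hNG, hnorm⟩
      by_contra hzU
      obtain ⟨d, hdN, hfreq⟩ := hdense N hN ⟨z, hzN, hzU⟩
      rw [hder] at hnorm
      exact not_mem_of_good hG hN hdN hfreq hnorm
    · intro z hz
      refine ⟨U, hU, hz, hUG, isNormal_of_tendsto (hG.differentiable_gg 0) ?_⟩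
      rw [hder]
      exact tendstoInfty_of_good hG hU ha

end Pool.Agent.Lib.MP_b969c4_an
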